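import Pool.Agent.P.MP_9cf23f_lc.Main

universe u

open Pool.Agent.Lib.Forcing Pool.Agent.P.MP_9cf23f_lc

/-- Let `M` be a transitive model of ZF in which every infinite cardinal has cofinality `ω`
(the defining property of Gitik's model in the problem file). Then for every set forcing
`(P, le) ∈ M` and every `M`-generic filter `H`, the generic extension `M[H]` has no
well-orderable dominating family. -/
theorem Pool.Agent.Results.MP_9cf23f_lc.NoDominatingNumber.result
    (M : Set ZFSet.{u}) (hM : IsZFModel M) (hcof : AllCardinalsCofOmega M)
    (P le : ZFSet.{u}) (hPM : P ∈ M) (hle : le ∈ M) (hP : IsForcing P le)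
    (H : ZFSet.{u}) (hH : IsGeneric M P le H) :
    ¬ DominatingNumberExists (genericExt M H) :=
  have := hM.zfm
  have := genericExt_zfm hM.powerSet hP hPM hle hH
  not_exists_of_outer (subset_genericExt hP hPM hH)
    (fun _ hx ho => ordinal_mem_of_genericExt hx ho) hcof
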